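import Pool.Agent.W851.BE.Stm
import Pool.Agent.W103.BK.Func

/-!
# Chain rule for the spherical derivative at classical points (project BE, part SPHCH)
-/

open Polynomial Topology Filter MeasureTheory

namespace Pool.Agent.W561.BE

open Pool.Agent.W95.BK Pool.Agent.W851.BE Pool.Agent.W103.BK

universe u

section alg
variable {K : Type u} [Field K]

lemma mul_deriv_pow (a : K[X]) (i : ℕ) :
    a * derivative (a ^ i) = (i : K[X]) * a ^ i * derivative a := by
  cases i with
  | zero => simp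
  | succ i =>
    rw [derivative_pow, C_eq_natCast, Nat.add_sub_cancel]
    ring

lemma term (a b : K[X]) (f : K) (i j : ℕ) :
    a * b * derivative (C f * a ^ i * b ^ j) =
      C f * (i : K[X]) * a ^ i * b ^ j * (derivative a * b - a * derivative b) +
        ((i : K[X]) + j) * (a * derivative b) * (C f * a ^ i * b ^ j) := by
  rw [derivative_mul, derivative_C_mul]
  have h1 := mul_deriv_pow a i
  have h2 := mul_deriv_pow b j
  linear_combination (C f * b * b ^ j) * h1 + (C f * a * a ^ i) * h2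

lemma coeff_X_deriv (F : K[X]) (i : ℕ) : (X * derivative F).coeff i = F.coeff i * i := by
  cases i with
  | zero => simp
  | succ i => rw [coeff_X_mul, coeff_derivative]; push_cast; ring

lemma euler (d : ℕ) (F a b : K[X]) :
    a * b * derivative (hom d F a b) =
      hom d (X * derivative F) a b * (derivative a * b - a * derivative b) +
        (d : K[X]) * (a * derivative b) * hom d F a b := by
  unfold hom
  rw [derivative_sum, Finset.mul_sum, Finset.sum_mul, Finset.mul_sum, ← Finset.sum_add_distrib]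
  refine Finset.sum_congr rfl fun i hi => ?_
  have hi' : i ≤ d := by have := Finset.mem_range.1 hi; omega
  rw [term, coeff_X_deriv, C_mul, C_eq_natCast]
  have : (d : K[X]) = (i : K[X]) + ((d - i : ℕ) : K[X]) := by
    rw [← Nat.cast_add]; congr 1; omega
  rw [this]

lemma natDegree_X_deriv {d : ℕ} {F : K[X]} (hF : F.natDegree ≤ d) :
    (X * derivative F).natDegree ≤ d := by
  rw [natDegree_le_iff_coeff_eq_zero]
  intro N hN
  rw [coeff_X_deriv, coeff_eq_zero_of_natDegree_lt (lt_of_le_of_lt hF hN), zero_mul]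

lemma hom_X (a b : K[X]) : hom 1 X a b = a := by
  unfold hom
  rw [Finset.sum_range_succ, Finset.sum_range_one]
  simp

lemma wronsk (d : ℕ) (hd : 1 ≤ d) (F G a b : K[X]) (hF : F.natDegree ≤ d)
    (hG : G.natDegree ≤ d)
    (hW : (derivative F * G - F * derivative G).natDegree ≤ 2 * d - 2) (ha : a ≠ 0)
    (hb : b ≠ 0) :
    derivative (hom d F a b) * hom d G a b - hom d F a b * derivative (hom d G a b) =
      hom (2 * d - 2) (derivative F * G - F * derivative G) a b *
        (derivative a * b - a * derivative b) := by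
  refine mul_left_cancel₀ (mul_ne_zero ha hb) ?_
  have e1 : hom (2 * d) (X * (derivative F * G - F * derivative G)) a b =
      a * b * hom (2 * d - 2) (derivative F * G - F * derivative G) a b := by
    have h1 : 2 * d = 1 + (2 * d - 2) + 1 := by omega
    conv_lhs => rw [h1]
    rw [hom_succ (natDegree_mul_le_of_le natDegree_X_le hW), hom_mul natDegree_X_le hW, hom_X]
    ring
  have e2 : hom (2 * d) (X * (derivative F * G - F * derivative G)) a b =
      hom d (X * derivative F) a b * hom d G a b - hom d F a b * hom d (X * derivative G) a b := by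
    have h1 : X * (derivative F * G - F * derivative G) =
        (X * derivative F) * G - F * (X * derivative G) := by ring
    rw [h1, hom_sub, two_mul, hom_mul (natDegree_X_deriv hF) hG,
      hom_mul hF (natDegree_X_deriv hG)]
  have h3 := euler d F a b
  have h4 := euler d G a b
  rw [← mul_assoc, ← e1, e2]
  linear_combination (hom d G a b) * h3 - (hom d F a b) * h4

end alg

section main
variable {K : Type u} [NontriviallyNormedField K]

lemma natDegree_wr (R : RMap K) : (wr R).natDegree ≤ 2 * R.d - 2 := by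
  have hd := R.pos
  have hP : R.P.natDegree ≤ R.d := R.deg_eq ▸ le_max_left _ _
  have hQ : R.Q.natDegree ≤ R.d := R.deg_eq ▸ le_max_right _ _
  have hP' : (derivative R.P).natDegree ≤ R.d - 1 :=
    (natDegree_derivative_le _).trans (by omega)
  have hQ' : (derivative R.Q).natDegree ≤ R.d - 1 :=
    (natDegree_derivative_le _).trans (by omega)
  rw [natDegree_le_iff_coeff_eq_zero]
  intro m hm
  unfold wr
  rcases Nat.lt_or_ge m (2 * R.d) with h | h
  · have h1 : m = (R.d - 1) + R.d := by omega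
    have h2 : m = R.d + (R.d - 1) := by omega
    have h3 : R.d - 1 + 1 = R.d := by omega
    rw [coeff_sub]
    conv_lhs => congr
                · rw [h1, coeff_mul_add_eq_of_natDegree_le hP' hQ]
                · rw [h2, coeff_mul_add_eq_of_natDegree_le hP hQ']
    rw [coeff_derivative, coeff_derivative, h3]
    ring
  · refine coeff_eq_zero_of_natDegree_lt ?_
    refine lt_of_le_of_lt (natDegree_sub_le_of_le (m := (R.d - 1) + R.d) (n := R.d + (R.d - 1))
      (natDegree_mul_le_of_le hP' hQ) (natDegree_mul_le_of_le hP hQ')) ?_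
    rw [max_lt_iff]
    omega

lemma P_ne_zero (g : RMap K) : g.P ≠ 0 := by
  intro h
  have hc := g.cop
  rw [h] at hc
  have hu : IsUnit g.Q := isCoprime_zero_left.1 hc
  have h1 := natDegree_eq_zero_of_isUnit hu
  have h2 := g.deg_eq
  have h3 := g.pos
  rw [h, h1] at h2
  simp at h2
  omega

lemma wr_comp [IsAlgClosed K] (f g : RMap K) :
    wr (f.comp g) = hom (2 * f.d - 2) (wr f) g.P g.Q * wr g := by
  have hP : f.P.natDegree ≤ f.d := f.deg_eq ▸ le_max_left _ _
  have hQ : f.Q.natDegree ≤ f.d := f.deg_eq ▸ le_max_right _ _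
  exact wronsk f.d f.pos f.P f.Q g.P g.Q hP hQ (natDegree_wr f) (P_ne_zero g) (Q_ne_zero g)

variable [IsUltrametricDist K]

/-- homogeneous form of the spherical derivative -/
lemma core (f : RMap K) (s t : K) (h : ¬ (s = 0 ∧ t = 0)) :
    ‖∑ i ∈ Finset.range (2 * f.d - 2 + 1), (wr f).coeff i * s ^ i * t ^ (2 * f.d - 2 - i)‖ /
      max ‖∑ i ∈ Finset.range (f.d + 1), f.P.coeff i * s ^ i * t ^ (f.d - i)‖
        ‖∑ i ∈ Finset.range (f.d + 1), f.Q.coeff i * s ^ i * t ^ (f.d - i)‖ ^ 2 =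
    sphDeriv f (pt s t) / max ‖s‖ ‖t‖ ^ 2 := by
  have hP : f.P.natDegree ≤ f.d := f.deg_eq ▸ le_max_left _ _
  have hQ : f.Q.natDegree ≤ f.d := f.deg_eq ▸ le_max_right _ _
  have hd := f.pos
  by_cases ht : t = 0
  · subst ht
    have hs : s ≠ 0 := fun h' => h ⟨h', rfl⟩
    have hs' : 0 < ‖s‖ := norm_pos_iff.2 hs
    rw [sum_eq_top, sum_eq_top, sum_eq_top]
    have e1 : pt s (0 : K) = OnePoint.infty := by simp [pt]
    rw [e1]
    change _ = (‖(wr f).coeff (2 * f.d - 2)‖ / max ‖f.P.coeff f.d‖ ‖f.Q.coeff f.d‖ ^ 2) / _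
    rw [norm_mul, norm_mul, norm_mul, norm_pow, norm_pow, norm_zero,
      max_eq_left (norm_nonneg s), ← max_mul_of_nonneg _ _ (pow_nonneg hs'.le _), mul_pow]
    have e2 : (‖s‖ ^ f.d) ^ 2 = ‖s‖ ^ (2 * f.d - 2) * ‖s‖ ^ 2 := by
      rw [← pow_mul, ← pow_add]; congr 1; omega
    rw [e2]
    have h1 : ‖s‖ ^ (2 * f.d - 2) ≠ 0 := (pow_pos hs' _).ne'
    have h2 : ‖s‖ ^ 2 ≠ 0 := (pow_pos hs' _).ne'
    rw [div_div, mul_comm (‖(wr f).coeff (2 * f.d - 2)‖), mul_left_comm,
      mul_div_mul_left _ _ h1]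
  · have ht' : 0 < ‖t‖ := norm_pos_iff.2 ht
    rw [sum_eq_eval (natDegree_wr f) _ _ ht, sum_eq_eval hP _ _ ht, sum_eq_eval hQ _ _ ht]
    have e1 : pt s t = ((cl (s / t) : BA K) : P1B K) := by simp [pt, ht]
    rw [e1]
    change _ = (‖(wr f).eval (s / t)‖ * max 1 ‖(X : K[X]).eval (s / t)‖ ^ 2 /
      max ‖f.P.eval (s / t)‖ ‖f.Q.eval (s / t)‖ ^ 2) / _
    rw [eval_X, norm_mul, norm_mul, norm_mul, norm_pow, norm_pow,
      ← mul_max_of_nonneg _ _ (pow_nonneg ht'.le _), mul_pow]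
    have e2 : (‖t‖ ^ f.d) ^ 2 = ‖t‖ ^ (2 * f.d - 2) * ‖t‖ ^ 2 := by
      rw [← pow_mul, ← pow_add]; congr 1; omega
    have e3 : max 1 ‖s / t‖ = max ‖s‖ ‖t‖ / ‖t‖ := by
      rw [norm_div, max_comm ‖s‖, ← max_div_div_right ht'.le, div_self ht'.ne']
    have h1 : ‖t‖ ^ (2 * f.d - 2) ≠ 0 := (pow_pos ht' _).ne'
    have h2 : ‖t‖ ^ 2 ≠ 0 := (pow_pos ht' _).ne'
    have h3 : max ‖s‖ ‖t‖ ^ 2 ≠ 0 := (pow_pos (lt_max_of_lt_right ht') _).ne'
    rw [e2, e3, div_pow]
    rw [mul_assoc, mul_div_mul_left _ _ h1, div_div]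
    rw [← mul_div_assoc, div_div, ← mul_assoc, mul_div_mul_right _ _ h3]

/-- conclusion in homogeneous form -/
lemma fin (A p q m w s : ℝ) (hcore : A / p ^ 2 = s / q ^ 2) :
    A * w * m / p ^ 2 = s * (w * m / q ^ 2) := by
  have : A * w * m / p ^ 2 = (A / p ^ 2) * (w * m) := by ring
  rw [this, hcore]
  ring

theorem main : S_ACT.{u} → S_SPHCH.{u} := by
  intro hA K _ _ _ f g x hx
  rcases hx with rfl | ⟨c, rfl⟩
  · rw [act_infty]
    have hP : g.P.natDegree ≤ g.d := g.deg_eq ▸ le_max_left _ _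
    have hQ : g.Q.natDegree ≤ g.d := g.deg_eq ▸ le_max_right _ _
    have hf := f.pos
    have hg := g.pos
    have hcore := core f (g.P.coeff g.d) (g.Q.coeff g.d) (top_ne g)
    change ‖(wr (f.comp g)).coeff (2 * (f.d * g.d) - 2)‖ /
      max ‖(hom f.d f.P g.P g.Q).coeff (f.d * g.d)‖ ‖(hom f.d f.Q g.P g.Q).coeff (f.d * g.d)‖ ^ 2
      = sphDeriv f _ * (‖(wr g).coeff (2 * g.d - 2)‖ / max ‖g.P.coeff g.d‖ ‖g.Q.coeff g.d‖ ^ 2)
    have e : 2 * (f.d * g.d) - 2 = (2 * f.d - 2) * g.d + (2 * g.d - 2) := by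
      obtain ⟨a, ha⟩ : ∃ a, f.d = a + 1 := ⟨f.d - 1, by omega⟩
      obtain ⟨b, hb⟩ : ∃ b, g.d = b + 1 := ⟨g.d - 1, by omega⟩
      rw [ha, hb]
      have h1 : 2 * (a + 1) - 2 = 2 * a := by omega
      have h2 : 2 * (b + 1) - 2 = 2 * b := by omega
      have h3 : 2 * ((a + 1) * (b + 1)) = 2 * a * (b + 1) + 2 * b + 2 := by ring
      rw [h1, h2, h3]
      omega
    rw [e, wr_comp, coeff_mul_add_eq_of_natDegree_le (natDegree_hom_le _ hP hQ) (natDegree_wr g),
      coeff_hom_top _ hP hQ, coeff_hom_top _ hP hQ, coeff_hom_top _ hP hQ, norm_mul]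
    have := fin _ _ _ 1 ‖(wr g).coeff (2 * g.d - 2)‖ _ hcore
    rw [mul_one, mul_one] at this
    exact this
  · rw [act_cl hA]
    have hcore := core f (g.P.eval c) (g.Q.eval c) (eval_ne g c)
    change ‖(wr (f.comp g)).eval c‖ * max 1 ‖(X : K[X]).eval c‖ ^ 2 /
      max ‖(hom f.d f.P g.P g.Q).eval c‖ ‖(hom f.d f.Q g.P g.Q).eval c‖ ^ 2
      = sphDeriv f _ * (‖(wr g).eval c‖ * max 1 ‖(X : K[X]).eval c‖ ^ 2 /
        max ‖g.P.eval c‖ ‖g.Q.eval c‖ ^ 2)
    rw [wr_comp, eval_mul, eval_hom, eval_hom, eval_hom, norm_mul]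
    exact fin _ _ _ _ _ _ hcore

end main

end Pool.Agent.W561.BE
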